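import Pool.Agent.BEL.StmtsP
import Pool.Agent.Helper72_BE01.Hsc

/-!
# Squad BEL, row RLC (helper31): Rellich
-/

namespace Pool.Agent.BEL.H31

open Set Filter Topology MeasureTheory
open scoped InnerProductSpace ENNReal
open Pool.Agent.BE01

/-- row RLC -/
theorem rlc (h : AvoStmt) : RlcStmt := by
  intro d Ω ι hd hΩ hι
  obtain ⟨C, hC, hA⟩ := h d Ω ι hd hΩ hι
  haveI : IsFiniteMeasure (mu Ω) :=
    ⟨by rw [mu, Measure.restrict_apply_univ]; exact hΩ.2.1.measure_lt_top⟩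
  choose A hA1 hA2 hA3 using fun n : ℕ => hA (1 / ((n : ℝ) + 1)) Nat.one_div_pos_of_nat
  have hT : Tendsto (fun n : ℕ => (A n).comp ι) atTop (𝓝 ι) := by
    refine (tendsto_iff_norm_sub_tendsto_zero (E := VV Ω →L[ℝ] Lp ℝ 2 (mu Ω))).2 ?_
    refine squeeze_zero
      (fun n => norm_nonneg ((A n).comp ι - ι : VV Ω →L[ℝ] Lp ℝ 2 (mu Ω))) (fun n => ?_)
      tendsto_one_div_add_atTop_nhds_zero_nat
    refine ContinuousLinearMap.opNorm_le_bound _ (by positivity) fun G => ?_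
    have h1 : ((A n).comp ι - ι) G = A n (ι G) - ι G := rfl
    rw [h1, norm_sub_rev]
    exact hA3 n G
  refine isCompactOperator_of_tendsto hT (Eventually.of_forall fun n => ?_)
  · have h1 : IsCompactOperator (A n) :=
      H72.hsc (En d) (mu Ω) (A n) (C * (1 / ((n : ℝ) + 1)) ^ (-((d : ℝ) / 2))) (by positivity)
        (hA1 n)
    exact h1.comp_clm ι

end Pool.Agent.BEL.H31
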