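import Pool.Agent.BEL.StmtsC

/-!
# Squad BEL, row AVD: average of the perturbation terms over the signs (helper31)
-/

namespace Pool.Agent.BEL.H31

open MeasureTheory Filter Topology Set
open scoped InnerProductSpace ENNReal

noncomputable section

theorem av_add {r : ℕ} (F G : (Fin r → Bool) → ℝ) :
    av (fun e => F e + G e) = av F + av G := by
  simp only [av, Finset.sum_add_distrib]
  ring

theorem av_mul {r : ℕ} (c : ℝ) (F : (Fin r → Bool) → ℝ) :
    av (fun e => c * F e) = c * av F := by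
  simp only [av, ← Finset.mul_sum]
  ring

theorem av_zero {r : ℕ} : av (fun _ : Fin r → Bool => (0 : ℝ)) = 0 := by
  simp [av]

theorem av_integral {r : ℕ} (F : (Fin r → Bool) → ℝ → ℝ) (p q : ℝ)
    (hF : ∀ e, Continuous (F e)) :
    av (fun e => ∫ t in p..q, F e t) = ∫ t in p..q, av (fun e => F e t) := by
  simp only [av]
  rw [intervalIntegral.integral_const_mul, intervalIntegral.integral_finset_sum]
  intro e _
  exact (hF e).intervalIntegrable _ _

theorem av_cont {r : ℕ} (F : (Fin r → Bool) → ℝ → ℝ) (hF : ∀ e, Continuous (F e)) :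
    Continuous fun t => av (fun e => F e t) := by
  simp only [av]
  exact continuous_const.mul (continuous_finset_sum _ fun e _ => hF e)

section st

variable {X : Type} [MeasurableSpace X] {μ : Measure X} [IsFiniteMeasure μ] {κ : Type}

/-- The bound at a fixed time. -/
theorem ptw (hCGL : CglStmt) (h4x : Ex4Stmt) {al CW mX C1 C2 C3 : ℝ} (hal : 0 < al)
    (hC1 : 0 < C1) (hC2 : 0 < C2) (hC3 : 0 < C3) (hCW : 0 < CW)
    (b : HilbertBasis κ ℝ (Lp ℝ 2 μ)) (J : Finset κ) (r : ℕ) (u : Fin r → Lp ℝ 2 μ) (B : ℝ)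
    (E1 : ∀ ρ : X → ℝ, (∀ᵐ x ∂μ, 0 ≤ ρ x) → Integrable ρ μ →
      av (fun ε => ∫ x, ρ x * |(∑ i, sg (ε i) • u i : Lp ℝ 2 μ) x| ^ (al + 2) ∂μ) ≤
        C1 * ((CW * J.card) * B) ^ ((al + 2) / 2) * ∫ x, ρ x ∂μ)
    (E2 : ∀ ρ : X → ℝ, (∀ᵐ x ∂μ, 0 ≤ ρ x) → Integrable ρ μ →
      av (fun ε => ∫ x, ρ x * |(∑ i, sg (ε i) • u i : Lp ℝ 2 μ) x| ^ (4 : ℝ) ∂μ) ≤
        C2 * ((CW * J.card) * B) ^ ((4 : ℝ) / 2) * ∫ x, ρ x ∂μ)
    (E3 : ∀ ρ : X → ℝ, (∀ᵐ x ∂μ, 0 ≤ ρ x) → Integrable ρ μ →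
      av (fun ε => ∫ x, ρ x * |(∑ i, sg (ε i) • u i : Lp ℝ 2 μ) x| ^ (2 : ℝ) ∂μ) ≤
        C3 * ((CW * J.card) * B) ^ ((2 : ℝ) / 2) * ∫ x, ρ x ∂μ)
    (hB : 0 ≤ B) (hJ : J.Nonempty) (hu : ∀ i, PJ b J (u i) = u i)
    (hub : ∀ a : Fin r → ℝ, ‖∑ i, a i • u i‖ ^ 2 ≤ B * ∑ i, a i ^ 2)
    {a M l : ℝ} (ha : 0 < a) (hM : 0 < M) (hl : 0 < l) (w v : Lp ℝ 2 μ) {s g g0 b4 b5 : ℝ}
    (hs : 0 ≤ s) (hg : 0 ≤ g) (hgg : g ≤ g0) (hBg : (J.card : ℝ) * B ≤ g)
    (hmX : μ.real univ ≤ mX) (hmX0 : 0 ≤ mX)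
    (hb4 : ∫ x, (min (ql a al l (w x)) M - cf a al M (v x)) ^ 2 ∂μ ≤ b4)
    (hb5 : (1 / (J.card : ℝ)) * ∑ j ∈ J, lk μ b J (cfv μ a al M v) (b j) ≤ b5) :
    av (fun ε => hh μ a al l M s b J w v (∑ i, sg (ε i) • u i)) ≤
      C1 * (CW * g) ^ ((al + 2) / 2) * mX +
      C2 * (CW * g) ^ 2 * (if 2 < al then ∫ x, mm (al - 2) l (w x) ∂μ else 0) +
      C3 * (CW * g0) * (∫ x, max (ql a al l (w x) - M) 0 ∂μ) +
      s * (C3 * (CW * g0) * b4 + g0 * b5) := by
  obtain ⟨hmmc, hqc, hglc, hgd, hg0, hmm0, hmml, hq0, hgmono, hglip, -, -, -, -, hcf⟩ :=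
    hCGL a al l ha hal hl.le
  obtain ⟨hcfc, hcf0, hcfM, -⟩ := hcf M hM
  have hAB0 : 0 ≤ (CW * J.card) * B := by positivity
  have hABg : (CW * J.card) * B ≤ CW * g := by
    rw [mul_assoc]; exact mul_le_mul_of_nonneg_left hBg hCW.le
  have hCg0 : 0 ≤ CW * g := mul_nonneg hCW.le hg
  have hg00 : 0 ≤ g0 := hg.trans hgg
  have hCgg : CW * g ≤ CW * g0 := mul_le_mul_of_nonneg_left hgg hCW.le
  have wm := Lp.aestronglyMeasurable w
  have vm := Lp.aestronglyMeasurable v
  have hqle : ∀ p, ql a al l p ≤ a * (al + 1) * l ^ al := fun p => by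
    unfold ql; exact mul_le_mul_of_nonneg_left (hmml p) (by positivity)
  -- h1
  have k1 : av (fun ε => h1 μ al (∑ i, sg (ε i) • u i)) ≤
      C1 * (CW * g) ^ ((al + 2) / 2) * mX := by
    have := E1 (fun _ => 1) (Eventually.of_forall fun _ => zero_le_one) (integrable_const _)
    simp only [one_mul, integral_const, smul_eq_mul, mul_one] at this
    refine this.trans ?_
    have e1 : ((CW * J.card) * B) ^ ((al + 2) / 2) ≤ (CW * g) ^ ((al + 2) / 2) :=
      Real.rpow_le_rpow hAB0 hABg (by positivity)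
    have e2 : (0 : ℝ) ≤ ((CW * J.card) * B) ^ ((al + 2) / 2) := Real.rpow_nonneg hAB0 _
    have e3 : (0 : ℝ) ≤ μ.real univ := measureReal_nonneg
    gcongr
  -- h2
  have k2 : av (fun ε => h2 μ al l w (∑ i, sg (ε i) • u i)) ≤
      C2 * (CW * g) ^ 2 * (if 2 < al then ∫ x, mm (al - 2) l (w x) ∂μ else 0) := by
    by_cases h : 2 < al
    · simp only [h2, if_pos h]
      obtain ⟨mc, -, -, -, -, m0, ml', -⟩ := hCGL a (al - 2) l ha (by linarith) hl.le
      have hint : Integrable (fun x => mm (al - 2) l (w x)) μ := by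
        refine Integrable.of_bound (mc.comp_aestronglyMeasurable wm) (l ^ (al - 2))
          (Eventually.of_forall fun x => ?_)
        rw [Real.norm_eq_abs, abs_of_nonneg (m0 _)]
        exact ml' _
      have := E2 (fun x => mm (al - 2) l (w x)) (Eventually.of_forall fun x => m0 _) hint
      have e0 : (fun ε : Fin r → Bool => ∫ x, mm (al - 2) l (w x) *
          ((∑ i, sg (ε i) • u i : Lp ℝ 2 μ) x) ^ 4 ∂μ) = fun ε => ∫ x, mm (al - 2) l (w x) *
          |(∑ i, sg (ε i) • u i : Lp ℝ 2 μ) x| ^ (4 : ℝ) ∂μ := by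
        funext ε
        refine integral_congr_ae (Eventually.of_forall fun x => ?_)
        simp only
        rw [show (4 : ℝ) = ((4 : ℕ) : ℝ) by norm_num, Real.rpow_natCast,
          Even.pow_abs (by decide)]
      rw [e0]
      refine this.trans ?_
      have i0 : 0 ≤ ∫ x, mm (al - 2) l (w x) ∂μ := integral_nonneg fun x => m0 _
      have e1 : ((CW * J.card) * B) ^ ((4 : ℝ) / 2) ≤ (CW * g) ^ 2 := by
        rw [show (4 : ℝ) / 2 = ((2 : ℕ) : ℝ) by norm_num, Real.rpow_natCast]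
        exact pow_le_pow_left₀ hAB0 hABg 2
      exact mul_le_mul_of_nonneg_right (mul_le_mul_of_nonneg_left e1 hC2.le) i0
    · simp only [h2, if_neg h, mul_zero, av_zero, le_refl]
  -- h3
  have hmax0 : ∀ x, 0 ≤ max (ql a al l (w x) - M) 0 := fun x => le_max_right _ _
  have hABr : ((CW * J.card) * B) ^ ((2 : ℝ) / 2) ≤ CW * g0 := by
    rw [show (2 : ℝ) / 2 = 1 by norm_num, Real.rpow_one]
    exact hABg.trans hCgg
  have k3 : av (fun ε => h3 μ a al l M w (∑ i, sg (ε i) • u i)) ≤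
      C3 * (CW * g0) * (∫ x, max (ql a al l (w x) - M) 0 ∂μ) := by
    have hint : Integrable (fun x => max (ql a al l (w x) - M) 0) μ := by
      refine Integrable.of_bound (((hqc.sub continuous_const).max
        continuous_const).comp_aestronglyMeasurable wm) (a * (al + 1) * l ^ al)
        (Eventually.of_forall fun x => ?_)
      rw [Real.norm_eq_abs, abs_of_nonneg (le_max_right _ _)]
      exact max_le (by linarith [hqle (w x)]) (by positivity)
    have := E3 _ (Eventually.of_forall hmax0) hint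
    have e0 : (fun ε : Fin r → Bool => h3 μ a al l M w (∑ i, sg (ε i) • u i)) =
        fun ε => ∫ x, max (ql a al l (w x) - M) 0 *
        |(∑ i, sg (ε i) • u i : Lp ℝ 2 μ) x| ^ (2 : ℝ) ∂μ := by
      funext ε
      unfold h3
      refine integral_congr_ae (Eventually.of_forall fun x => ?_)
      simp only
      rw [show (2 : ℝ) = ((2 : ℕ) : ℝ) by norm_num, Real.rpow_natCast, sq_abs]
    rw [e0]
    refine this.trans ?_
    have i0 : 0 ≤ ∫ x, max (ql a al l (w x) - M) 0 ∂μ := integral_nonneg hmax0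
    exact mul_le_mul_of_nonneg_right (mul_le_mul_of_nonneg_left hABr hC3.le) i0
  -- h4
  have k4 : av (fun ε => h4 μ a al l M w v (∑ i, sg (ε i) • u i)) ≤ C3 * (CW * g0) * b4 := by
    have hint : Integrable (fun x => (min (ql a al l (w x)) M - cf a al M (v x)) ^ 2) μ := by
      refine Integrable.of_bound ((((hqc.min continuous_const).comp_aestronglyMeasurable wm).sub
        (hcfc.comp_aestronglyMeasurable vm)).pow 2) (M ^ 2)
        (Eventually.of_forall fun x => ?_)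
      rw [Real.norm_eq_abs, abs_of_nonneg (sq_nonneg _)]
      have a1 : 0 ≤ min (ql a al l (w x)) M := le_min (hq0 _) hM.le
      have a2 : min (ql a al l (w x)) M ≤ M := min_le_right _ _
      have a3 := hcf0 (v x)
      have a4 := hcfM (v x)
      exact sq_le_sq' (by linarith) (by linarith)
    have := E3 _ (Eventually.of_forall fun x => sq_nonneg _) hint
    have e0 : (fun ε : Fin r → Bool => h4 μ a al l M w v (∑ i, sg (ε i) • u i)) =
        fun ε => ∫ x, (min (ql a al l (w x)) M - cf a al M (v x)) ^ 2 *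
        |(∑ i, sg (ε i) • u i : Lp ℝ 2 μ) x| ^ (2 : ℝ) ∂μ := by
      funext ε
      unfold h4
      refine integral_congr_ae (Eventually.of_forall fun x => ?_)
      simp only
      rw [show (2 : ℝ) = ((2 : ℕ) : ℝ) by norm_num, Real.rpow_natCast, sq_abs]
    rw [e0]
    refine this.trans ?_
    have i0 : 0 ≤ ∫ x, (min (ql a al l (w x)) M - cf a al M (v x)) ^ 2 ∂μ :=
      integral_nonneg fun x => sq_nonneg _
    refine (mul_le_mul_of_nonneg_right (mul_le_mul_of_nonneg_left hABr hC3.le) i0).trans ?_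
    exact mul_le_mul_of_nonneg_left hb4 (by positivity)
  -- lk
  have k5 : av (fun ε => lk μ b J (cfv μ a al M v) (∑ i, sg (ε i) • u i)) ≤ g0 * b5 := by
    have hfm : Measurable (cfv μ a al M v) :=
      hcfc.measurable.comp (Lp.stronglyMeasurable v).measurable
    have hfb : ∀ x, |cfv μ a al M v x| ≤ M := fun x => by
      unfold cfv
      rw [abs_of_nonneg (hcf0 _)]
      exact hcfM _
    refine (h4x X μ κ b J B M r u (cfv μ a al M v) hfm hfb hB hu hub).trans ?_
    have hS : 0 ≤ ∑ j ∈ J, lk μ b J (cfv μ a al M v) (b j) :=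
      Finset.sum_nonneg fun j _ => by unfold lk; exact sq_nonneg _
    have hc : (0 : ℝ) < J.card := by exact_mod_cast hJ.card_pos
    generalize (∑ j ∈ J, lk μ b J (cfv μ a al M v) (b j)) = S at hb5 hS ⊢
    have hS5 : S = J.card * ((1 / (J.card : ℝ)) * S) := by
      rw [← mul_assoc, mul_one_div_cancel hc.ne', one_mul]
    have hb50 : 0 ≤ (1 / (J.card : ℝ)) * S := mul_nonneg (one_div_pos.2 hc).le hS
    have hq1 : B * S = (J.card * B) * ((1 / (J.card : ℝ)) * S) := by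
      calc B * S = B * (J.card * ((1 / (J.card : ℝ)) * S)) := by rw [← hS5]
        _ = _ := by ring
    rw [hq1]
    exact (mul_le_mul_of_nonneg_right (hBg.trans hgg) hb50).trans
      (mul_le_mul_of_nonneg_left hb5 hg00)
  -- total
  have e : av (fun ε => hh μ a al l M s b J w v (∑ i, sg (ε i) • u i)) =
      av (fun ε => h1 μ al (∑ i, sg (ε i) • u i)) +
      av (fun ε => h2 μ al l w (∑ i, sg (ε i) • u i)) +
      av (fun ε => h3 μ a al l M w (∑ i, sg (ε i) • u i)) +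
      s * (av (fun ε => h4 μ a al l M w v (∑ i, sg (ε i) • u i)) +
        av (fun ε => lk μ b J (cfv μ a al M v) (∑ i, sg (ε i) • u i))) := by
    unfold hh
    rw [av_add, av_add, av_add, av_mul, av_add]
  rw [e]
  have k45 := mul_le_mul_of_nonneg_left (add_le_add k4 k5) hs
  linarith

end st

theorem tm_zero (m : ℕ) : tm m 0 = 0 := by simp [tm]

theorem tm_mono {m i j : ℕ} (h : i ≤ j) : tm m i ≤ tm m j := by
  unfold tm
  have : (2 : ℝ) ^ (m * i) ≤ 2 ^ (m * j) :=
    pow_le_pow_right₀ (by norm_num) (Nat.mul_le_mul_left m h)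
  linarith

theorem tm_nonneg (m k : ℕ) : 0 ≤ tm m k := by
  have := tm_mono (m := m) (Nat.zero_le k)
  rwa [tm_zero] at this

theorem tm_block (m j : ℕ) : tm m (j + 1) - tm m j ≤ (2 : ℝ) ^ (m * (j + 1)) := by
  unfold tm
  have : (0 : ℝ) ≤ 2 ^ (m * j) := by positivity
  linarith

theorem avd (hGPK : GpkStmt) (hGRQ : GrqStmt) (hEX1 : Ex1Stmt) (hEX4 : Ex4Stmt)
    (hCTI : CtiStmt) (hCTJ : CtjStmt) (hCGL : CglStmt) : AvdStmt := by
  intro al CW mX hal hCW hmX0
  obtain ⟨C1, hC1, X1⟩ := hEX1 (al + 2) (by linarith)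
  obtain ⟨C2, hC2, X2⟩ := hEX1 4 (by norm_num)
  obtain ⟨C3, hC3, X3⟩ := hEX1 2 (by norm_num)
  set c1 : ℝ := C1 * CW ^ ((al + 2) / 2) * mX with hc1
  set c2 : ℝ := C2 * CW ^ 2 with hc2
  set c3 : ℝ := C3 * CW with hc3
  have hc10 : 0 ≤ c1 := by positivity
  have hc20 : 0 ≤ c2 := by positivity
  have hc30 : 0 ≤ c3 := by positivity
  refine ⟨c1 + c2 + c3 + 1, by positivity, ?_⟩
  intro X _ μ _ κ b om W J a M l v E _ _ e Φ V Z0 m k r g G b2 L b3 b4 b5 hmX hGrp ha hM hl hJ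
    hJr hbA hv hLf hfl hm hk hL hG0 hGm hGb hb20 hb2 hb3 hb4 hb5
  obtain ⟨W0, Wadd, Wnorm, -, -, Wcont, -, -⟩ := hGRQ (Lp ℝ 2 μ) κ b om W hGrp
  obtain ⟨gp1, gp2, -, -, -, -, -, -, -, gp10⟩ := hGPK (Lp ℝ 2 μ) κ b om W hGrp
  obtain ⟨hmmc, hqc, hglc, hgd, hg0, hmm0, hmml, hq0, hgmono, hglip, -, -, -, -, hcf⟩ :=
    hCGL a al l ha hal hl.le
  have hqle : ∀ p, ql a al l p ≤ a * (al + 1) * l ^ al := fun p => by
    unfold ql; exact mul_le_mul_of_nonneg_left (hmml p) (by positivity)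
  have hcard : (0 : ℝ) < J.card := by exact_mod_cast hJ.card_pos
  have hr : (0 : ℝ) < r := lt_of_lt_of_le hcard (by exact_mod_cast hJr)
  have hJr' : (J.card : ℝ) ≤ r := by exact_mod_cast hJr
  set s := tm m k with hsdef
  have hs : 0 ≤ s := tm_nonneg m k
  set q : ℝ := L / Real.sqrt r with hq
  have hq2 : q ^ 2 = L ^ 2 / r := by
    rw [hq, div_pow, Real.sq_sqrt hr.le]
  -- the base orbit
  set w : ℝ → Lp ℝ 2 μ := fun t => P2 (W t (Z0 t)) with hw
  have hZc : Continuous Z0 := continuous_iff_continuousAt.2 fun t => (hfl.eq t).continuousAt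
  have hwc : Continuous w := P2.continuous.comp (Wcont Z0 hZc)
  -- the linearized orbits
  have hyc : ∀ c : E, Continuous fun t => P2 (W t (e (Φ t c))) := fun c =>
    P2.continuous.comp (Wcont _ (continuous_iff_continuousAt.2 fun t =>
      (hLf.der c t).continuousAt))
  have hyJ : ∀ (c : E) t, PJ b J (P2 (W t (e (Φ t c)))) = P2 (W t (e (Φ t c))) := by
    intro c t
    have h1 : PK b J (e (Φ t c)) = e (Φ t c) := (hLf.rng _).2 ⟨_, rfl⟩
    rw [← gp2, gp1, h1]
  set u : ℝ → Fin r → Lp ℝ 2 μ := fun t i => q • P2 (W t (e (Φ t (g i)))) with hu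
  have hlin : ∀ (t : ℝ) (a' : Fin r → ℝ),
      P2 (W t (e (Φ t (q • ∑ i, a' i • g i)))) = ∑ i, a' i • u t i := by
    intro t a'
    simp only [hu, map_smul, map_sum, Finset.smul_sum]
    exact Finset.sum_congr rfl fun i _ => smul_comm _ _ _
  have huJ : ∀ t i, PJ b J (u t i) = u t i := by
    intro t i
    simp only [hu, map_smul, hyJ]
  have hP2 : ∀ (c : E) (t : ℝ), ‖P2 (W t (e (Φ t c)))‖ ≤ ‖Φ t c‖ := by
    intro c t
    refine ((gp10 _).1).trans ?_
    rw [Wnorm, e.norm_map]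
  -- the function of time
  set Hf : ℝ → ℝ := fun t => av (fun ε => hh μ a al l M s b J (w t) (v t)
    (P2 (W t (e (Φ t (q • ∑ i, sg (ε i) • g i)))))) with hHf
  have hhc : ∀ c : E, Continuous fun t => hh μ a al l M s b J (w t) (v t)
      (P2 (W t (e (Φ t c)))) := by
    intro c
    obtain ⟨d1, d2, d3, d4, d5⟩ := hCTI X μ κ b J (CW * J.card) a al l M ha hal hl hM hbA w v
      (fun t => P2 (W t (e (Φ t c)))) hwc hv (hyc c) (hyJ c)
    unfold hh
    exact ((d1.add d2).add d3).add (continuous_const.mul (d4.add d5))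
  have hHc : Continuous Hf := av_cont _ fun ε => hhc _
  have hav : av (fun ε => ∫ t in (0 : ℝ)..s, hh μ a al l M s b J (w t) (v t)
      (P2 (W t (e (Φ t (q • ∑ i, sg (ε i) • g i)))))) = ∫ t in (0 : ℝ)..s, Hf t :=
    av_integral _ 0 s fun ε => hhc _
  -- the weights
  set f2 : ℝ → ℝ := fun t => if 2 < al then ∫ x, mm (al - 2) l (w t x) ∂μ else 0 with hf2
  have hf2c : Continuous f2 := by
    by_cases h : 2 < al
    · obtain ⟨mc, -, -, -, -, m0, ml', -⟩ := hCGL a (al - 2) l ha (by linarith) hl.le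
      simp only [hf2, if_pos h]
      exact hCTJ X μ (fun p _ => mm (al - 2) l p) (l ^ (al - 2)) (mc.comp continuous_fst)
        (fun p _ => by rw [abs_of_nonneg (m0 _)]; exact ml' _) w v hwc hv
    · simp only [hf2, if_neg h]
      exact continuous_const
  set f3 : ℝ → ℝ := fun t => ∫ x, max (ql a al l (w t x) - M) 0 ∂μ with hf3
  have hf3c : Continuous f3 := by
    refine hCTJ X μ (fun p _ => max (ql a al l p - M) 0) (a * (al + 1) * l ^ al)
      (((hqc.comp continuous_fst).sub continuous_const).max continuous_const)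
      (fun p _ => ?_) w v hwc hv
    rw [abs_of_nonneg (le_max_right _ _)]
    exact max_le (by linarith [hqle p]) (by positivity)
  have hb40 : 0 ≤ b4 := (integral_nonneg fun x => sq_nonneg _).trans
    (hb4 0 ⟨le_rfl, hs⟩)
  have hb50 : 0 ≤ b5 := by
    refine le_trans ?_ (hb5 0 ⟨le_rfl, hs⟩)
    have : 0 ≤ ∑ j ∈ J, lk μ b J (cfv μ a al M (v 0)) (b j) :=
      Finset.sum_nonneg fun j _ => by unfold lk; positivity
    positivity
  have hf30 : 0 ≤ ∫ t in (0 : ℝ)..s, f3 t :=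
    intervalIntegral.integral_nonneg hs fun t _ => integral_nonneg fun x => le_max_right _ _
  have hb3' : ∫ t in (0 : ℝ)..s, f3 t ≤ b3 := hb3
  have hb30 : 0 ≤ b3 := hf30.trans hb3'
  have hL2 : 0 ≤ L ^ 2 := sq_nonneg L
  set δ : ℝ := s * (C3 * (CW * (L ^ 2 * G 0)) * b4 + (L ^ 2 * G 0) * b5) with hδ
  have hG00 := hG0 0
  have hδ0 : 0 ≤ δ := by positivity
  -- the pointwise bound
  have hpt : ∀ j < k, ∀ t ∈ Icc (tm m j) (tm m (j + 1)), Hf t ≤
      C1 * (CW * (L ^ 2 * G j)) ^ ((al + 2) / 2) * mX +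
      C2 * (CW * (L ^ 2 * G j)) ^ 2 * f2 t + C3 * (CW * (L ^ 2 * G 0)) * f3 t + δ := by
    intro j hj t ht
    have hts : t ∈ Icc (0 : ℝ) s :=
      ⟨(tm_nonneg m j).trans ht.1, ht.2.trans (tm_mono hj)⟩
    have hGj := hG0 j
    have hub : ∀ a' : Fin r → ℝ, ‖∑ i, a' i • u t i‖ ^ 2 ≤
        (L ^ 2 / r * G j) * ∑ i, a' i ^ 2 := by
      intro a'
      rw [← hlin]
      have h1 : ‖P2 (W t (e (Φ t (q • ∑ i, a' i • g i))))‖ ^ 2 ≤
          ‖Φ t (q • ∑ i, a' i • g i)‖ ^ 2 := pow_le_pow_left₀ (norm_nonneg _) (hP2 _ _) 2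
      refine h1.trans ?_
      rw [map_smul, norm_smul, mul_pow, Real.norm_eq_abs, sq_abs, hq2, mul_assoc]
      refine mul_le_mul_of_nonneg_left ?_ (by positivity)
      exact (pow_le_pow_left₀ (norm_nonneg _) (hLf.anti _ _ _ ht.1) 2).trans (hGb j hj a')
    have hB0 : 0 ≤ L ^ 2 / r * G j := by positivity
    have hA0 : 0 ≤ CW * (J.card : ℝ) := by positivity
    have hBg : (J.card : ℝ) * (L ^ 2 / r * G j) ≤ L ^ 2 * G j := by
      have : (J.card : ℝ) * (L ^ 2 / r * G j) = (J.card / r) * (L ^ 2 * G j) := by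
        field_simp
      rw [this]
      have h1 : (J.card : ℝ) / r ≤ 1 := (div_le_one hr).2 hJr'
      calc (J.card / r : ℝ) * (L ^ 2 * G j) ≤ 1 * (L ^ 2 * G j) :=
            mul_le_mul_of_nonneg_right h1 (by positivity)
        _ = _ := one_mul _
    have key := ptw (μ := μ) hCGL hEX4 hal hC1 hC2 hC3 hCW b J r (u t) (L ^ 2 / r * G j)
      (fun ρ h0 hi => X1 X μ κ b J (CW * J.card) _ r (u t) ρ hbA hA0 hB0 (huJ t) hub h0 hi)
      (fun ρ h0 hi => X2 X μ κ b J (CW * J.card) _ r (u t) ρ hbA hA0 hB0 (huJ t) hub h0 hi)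
      (fun ρ h0 hi => X3 X μ κ b J (CW * J.card) _ r (u t) ρ hbA hA0 hB0 (huJ t) hub h0 hi)
      hB0 hJ (huJ t) hub ha hM hl (w t) (v t) (s := s) (g := L ^ 2 * G j) (g0 := L ^ 2 * G 0)
      hs (by positivity) (mul_le_mul_of_nonneg_left (hGm 0 j (Nat.zero_le j)) hL2) hBg hmX hmX0
      (hb4 t hts) (hb5 t hts)
    have hE : Hf t = av (fun ε => hh μ a al l M s b J (w t) (v t)
        (∑ i, sg (ε i) • u t i)) := by
      simp only [hHf, hlin t]
    rw [hE]
    exact key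
  -- integrate over the blocks
  have hblk : ∀ j < k, ∫ t in (tm m j)..(tm m (j + 1)), Hf t ≤
      c1 * ((2 : ℝ) ^ (m * (j + 1)) * (L ^ 2 * G j) ^ ((al + 2) / 2)) +
      c2 * ((L ^ 2 * G j) ^ 2 * b2 j) +
      C3 * (CW * (L ^ 2 * G 0)) * (∫ t in (tm m j)..(tm m (j + 1)), f3 t) +
      δ * (tm m (j + 1) - tm m j) := by
    intro j hj
    have hGj := hG0 j
    have hle : tm m j ≤ tm m (j + 1) := tm_mono (Nat.le_succ j)
    have i1 : ∫ t in (tm m j)..(tm m (j + 1)), Hf t ≤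
        ∫ t in (tm m j)..(tm m (j + 1)), (C1 * (CW * (L ^ 2 * G j)) ^ ((al + 2) / 2) * mX +
        C2 * (CW * (L ^ 2 * G j)) ^ 2 * f2 t + C3 * (CW * (L ^ 2 * G 0)) * f3 t + δ) :=
      intervalIntegral.integral_mono_on hle (hHc.intervalIntegrable _ _)
        ((((continuous_const.add (continuous_const.mul hf2c)).add
          (continuous_const.mul hf3c)).add continuous_const).intervalIntegrable _ _)
        (hpt j hj)
    refine i1.trans ?_
    have j1 : IntervalIntegrable (fun _ : ℝ => C1 * (CW * (L ^ 2 * G j)) ^ ((al + 2) / 2) * mX)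
        volume (tm m j) (tm m (j + 1)) := intervalIntegrable_const
    have j2 : IntervalIntegrable (fun t => C2 * (CW * (L ^ 2 * G j)) ^ 2 * f2 t) volume
        (tm m j) (tm m (j + 1)) := (continuous_const.mul hf2c).intervalIntegrable _ _
    have j3 : IntervalIntegrable (fun t => C3 * (CW * (L ^ 2 * G 0)) * f3 t) volume
        (tm m j) (tm m (j + 1)) := (continuous_const.mul hf3c).intervalIntegrable _ _
    have j4 : IntervalIntegrable (fun _ : ℝ => δ) volume
        (tm m j) (tm m (j + 1)) := intervalIntegrable_const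
    rw [intervalIntegral.integral_add ((j1.add j2).add j3) j4,
      intervalIntegral.integral_add (j1.add j2) j3, intervalIntegral.integral_add j1 j2,
      intervalIntegral.integral_const, intervalIntegral.integral_const,
      intervalIntegral.integral_const_mul, intervalIntegral.integral_const_mul, smul_eq_mul,
      smul_eq_mul]
    have m1 : (tm m (j + 1) - tm m j) * (C1 * (CW * (L ^ 2 * G j)) ^ ((al + 2) / 2) * mX) ≤
        c1 * ((2 : ℝ) ^ (m * (j + 1)) * (L ^ 2 * G j) ^ ((al + 2) / 2)) := by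
      rw [Real.mul_rpow hCW.le (by positivity)]
      calc (tm m (j + 1) - tm m j) *
          (C1 * (CW ^ ((al + 2) / 2) * (L ^ 2 * G j) ^ ((al + 2) / 2)) * mX)
          ≤ (2 : ℝ) ^ (m * (j + 1)) *
          (C1 * (CW ^ ((al + 2) / 2) * (L ^ 2 * G j) ^ ((al + 2) / 2)) * mX) :=
            mul_le_mul_of_nonneg_right (tm_block m j) (by positivity)
        _ = _ := by rw [hc1]; ring
    have m2 : ∫ t in (tm m j)..(tm m (j + 1)), f2 t ≤ b2 j := by
      by_cases h : 2 < al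
      · have := hb2 h j hj
        simp only [hf2, if_pos h]
        exact this
      · simp only [hf2, if_neg h, intervalIntegral.integral_zero]
        exact hb20 j
    have m3 : C2 * (CW * (L ^ 2 * G j)) ^ 2 * (∫ t in (tm m j)..(tm m (j + 1)), f2 t) ≤
        c2 * ((L ^ 2 * G j) ^ 2 * b2 j) := by
      calc C2 * (CW * (L ^ 2 * G j)) ^ 2 * (∫ t in (tm m j)..(tm m (j + 1)), f2 t)
          ≤ C2 * (CW * (L ^ 2 * G j)) ^ 2 * b2 j :=
            mul_le_mul_of_nonneg_left m2 (by positivity)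
        _ = _ := by rw [hc2]; ring
    linarith
  -- sum over the blocks
  have hsum : ∫ t in (0 : ℝ)..s, Hf t =
      ∑ j ∈ Finset.range k, ∫ t in (tm m j)..(tm m (j + 1)), Hf t := by
    have := intervalIntegral.sum_integral_adjacent_intervals (f := Hf) (μ := volume)
      (a := fun j => tm m j) (n := k) fun j _ => hHc.intervalIntegrable _ _
    simp only [tm_zero] at this
    exact this.symm
  have hsum3 : ∑ j ∈ Finset.range k, ∫ t in (tm m j)..(tm m (j + 1)), f3 t =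
      ∫ t in (0 : ℝ)..s, f3 t := by
    have := intervalIntegral.sum_integral_adjacent_intervals (f := f3) (μ := volume)
      (a := fun j => tm m j) (n := k) fun j _ => hf3c.intervalIntegrable _ _
    simp only [tm_zero] at this
    exact this
  have htel : ∑ j ∈ Finset.range k, (tm m (j + 1) - tm m j) = s := by
    rw [Finset.sum_range_sub, tm_zero, sub_zero]
  have htot : ∫ t in (0 : ℝ)..s, Hf t ≤
      c1 * (∑ j ∈ Finset.range k, (2 : ℝ) ^ (m * (j + 1)) *
        (L ^ 2 * G j) ^ ((al + 2) / 2)) +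
      c2 * (∑ j ∈ Finset.range k, (L ^ 2 * G j) ^ 2 * b2 j) +
      C3 * (CW * (L ^ 2 * G 0)) * b3 + δ * s := by
    rw [hsum]
    refine (Finset.sum_le_sum fun j hj => hblk j (Finset.mem_range.1 hj)).trans ?_
    rw [Finset.sum_add_distrib, Finset.sum_add_distrib, Finset.sum_add_distrib,
      ← Finset.mul_sum, ← Finset.mul_sum, ← Finset.mul_sum, ← Finset.mul_sum, hsum3, htel]
    have : C3 * (CW * (L ^ 2 * G 0)) * (∫ t in (0 : ℝ)..s, f3 t) ≤
        C3 * (CW * (L ^ 2 * G 0)) * b3 := mul_le_mul_of_nonneg_left hb3' (by positivity)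
    linarith
  have hfin : av (fun ε => ∫ t in (0 : ℝ)..s, hh μ a al l M s b J (w t) (v t)
      (P2 (W t (e (Φ t (q • ∑ i, sg (ε i) • g i)))))) ≤
      (c1 + c2 + c3 + 1) *
      (∑ j ∈ Finset.range k, (2 : ℝ) ^ (m * (j + 1)) * (L ^ 2 * G j) ^ ((al + 2) / 2) +
        ∑ j ∈ Finset.range k, (L ^ 2 * G j) ^ 2 * b2 j + L ^ 2 * G 0 * b3 +
        s ^ 2 * (L ^ 2 * G 0) * (b4 + b5)) := by
    rw [hav]
    refine htot.trans ?_
    set S1 := ∑ j ∈ Finset.range k, (2 : ℝ) ^ (m * (j + 1)) * (L ^ 2 * G j) ^ ((al + 2) / 2)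
      with hS1
    set S2 := ∑ j ∈ Finset.range k, (L ^ 2 * G j) ^ 2 * b2 j with hS2
    have hS10 : 0 ≤ S1 := Finset.sum_nonneg fun j _ => by
      have := hG0 j
      positivity
    have hS20 : 0 ≤ S2 := Finset.sum_nonneg fun j _ => by
      have := hG0 j
      have := hb20 j
      positivity
    set T3 := L ^ 2 * G 0 * b3 with hT3
    have hT30 : 0 ≤ T3 := by positivity
    set T4 := s ^ 2 * (L ^ 2 * G 0) * b4 with hT4
    have hT40 : 0 ≤ T4 := by positivity
    set T5 := s ^ 2 * (L ^ 2 * G 0) * b5 with hT5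
    have hT50 : 0 ≤ T5 := by positivity
    have e1 : c1 * S1 + c2 * S2 + C3 * (CW * (L ^ 2 * G 0)) * b3 + δ * s =
        c1 * S1 + c2 * S2 + c3 * T3 + c3 * T4 + T5 := by
      rw [hδ, hT3, hT4, hT5, hc3]; ring
    have e2 : (c1 + c2 + c3 + 1) * (S1 + S2 + T3 + s ^ 2 * (L ^ 2 * G 0) * (b4 + b5)) =
        (c1 + c2 + c3 + 1) * (S1 + S2 + T3 + T4 + T5) := by
      rw [hT4, hT5]; ring
    rw [e1, e2]
    have n1 := mul_nonneg hc10 hS20
    have n2 := mul_nonneg hc10 hT30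
    have n3 := mul_nonneg hc10 hT40
    have n4 := mul_nonneg hc10 hT50
    have n5 := mul_nonneg hc20 hS10
    have n6 := mul_nonneg hc20 hT30
    have n7 := mul_nonneg hc20 hT40
    have n8 := mul_nonneg hc20 hT50
    have n9 := mul_nonneg hc30 hS10
    have n10 := mul_nonneg hc30 hS20
    have n11 := mul_nonneg hc30 hT50
    nlinarith
  exact hfin

end

end Pool.Agent.BEL.H31
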